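import Pool.Agent.Lib.MP_fb3619_al.Iface

/-! Module NSAM. -/

universe u

namespace Pool.Agent.FourGp.H16

open Equiv

theorem nsam.{v1} (hN : NcenS.{v1}) (hT : TcrsS.{v1}) : NsamS.{v1} := by
  intro P g hg hF v v' x φ ψ hvx hv'x hvv' hφ hψ y hy
  obtain ⟨t, ht, hs⟩ := hg.label
  have hvx' : ¬ g.st v x := hg.perp_st _ _ hvx
  have hv'x' : ¬ g.st v' x := hg.perp_st _ _ hv'x
  set w := g.cr v x with hw
  have hwx : g.perp w x := hg.perp_symm _ _ (hg.cr_r _ _ hvx')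
  have hwv : g.perp w v := hg.perp_symm _ _ (hg.cr_l _ _ hvx')
  have hwx' : ¬ g.st w x := hg.perp_st _ _ hwx
  have hwv' : ¬ g.st w v := hg.perp_st _ _ hwv
  have hwfix : φ.1 w = w := hφ.pts w (hg.perp_symm _ _ hwx)
  have hv'fix : φ.1 v' = v' := hφ.pts v' (hg.perp_symm _ _ hv'x)
  have hh' : g.perp w (φ.2 v) := by
    have := (hφ.inc w v).1 hwv
    rwa [hwfix] at this
  have hst2 : g.st v (φ.2 v) := hφ.tl v
  have hAdm : g.Adm w x v v' v (φ.2 v) := by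
    refine ⟨hwx, hg.perp_symm _ _ hvx, hg.perp_symm _ _ hv'x, hwv, hh', ?_, ?_, hvx', ?_⟩
    · rw [hs] at *; omega
    · rw [hs] at *; omega
    · rw [hs] at *; omega
  obtain ⟨γ, -, hγ, hγi⟩ := hF w x v v' v (φ.2 v) hAdm
  have hγv' : γ.1 v' = v' := hγ.pts v' (hg.perp_symm _ _ hv'x)
  -- the claim
  have key : ∀ l, g.perp v' l → ¬ g.st l x → φ.2 l = γ.2 l := by
    intro l hl hlx
    have hv'l : ¬ g.st v' l := hg.perp_st _ _ hl
    have hlv : ¬ g.st l v := by rw [hs] at *; omega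
    set z := g.cr l v with hz
    have hzl : g.perp l z := hg.cr_l _ _ hlv
    have hzv : g.perp v z := hg.cr_r _ _ hlv
    have hzl' : ¬ g.st l z := hg.perp_st _ _ hzl
    have hzv' : ¬ g.st v z := hg.perp_st _ _ hzv
    have hzx : g.st z x := by
      have := ht z; have := ht l; have := ht v; have := ht x
      rw [hs] at *; omega
    have hzv2 : ¬ g.st z v := fun e => hzv' (hg.st_symm _ _ e)
    -- `φ z`
    have h1 : φ.1 z = g.pr v (φ.2 v) z := by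
      refine hg.uniq (g.cr z v) (φ.2 v) _ ?_ ?_ ?_
      · have h2 := hg.cr_st_r hzv2
        intro e
        exact h2 (hg.st_trans _ _ _ e (hg.st_symm _ _ hst2))
      · have h2 := (hφ.inc z (g.cr z v)).1 (hg.cr_l _ _ hzv2)
        rw [hφ.lns _ (hg.cr_r _ _ hzv2)] at h2
        exact hg.perp_symm _ _ h2
      · exact hg.perp_symm _ _ ((hφ.inc z v).1 (hg.perp_symm _ _ hzv))
    have hzv'3 : ¬ g.st z v' := by rw [hs] at *; omega
    have hl2 : l = g.cr z v' := by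
      refine hg.uniq z v' l hzv'3 (hg.perp_symm _ _ hzl) hl
    have h3 : φ.2 l = g.cr (φ.1 z) v' := by
      conv_lhs => rw [hl2]
      rw [hg.col_cr hφ.toCol hzv'3, hv'fix]
    have h4 : γ.2 l = g.cr (γ.1 z) v' := by
      conv_lhs => rw [hl2]
      rw [hg.col_cr hγ.toCol hzv'3, hγv']
    have h5 : γ.1 z = g.pr v' v (φ.1 z) := by
      rw [hγi z hzx (hg.perp_symm _ _ hzv), h1]
      rfl
    rw [h3, h4, h5]
    refine (hg.cr_pr ?_ hvv').symm
    have h6 := hφ.tp z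
    rw [hs] at *
    omega
  have hTW : g.TW v' x (γ⁻¹ * φ) := by
    refine ⟨hg.col_mul (hg.col_inv hγ.toCol) hφ.toCol, fun z hz => ?_, fun l hl hlx => ?_⟩
    · change γ.1⁻¹ (φ.1 z) = z
      rw [Perm.inv_eq_iff_eq, hφ.pts z hz, hγ.pts z hz]
    · change γ.2⁻¹ (φ.2 l) = l
      rw [Perm.inv_eq_iff_eq, key l hl hlx]
  have hc1 := hN P g hg v' x (γ⁻¹ * φ) ψ hv'x hTW hψ y hy
  have hv'w : ¬ g.st v' w := by rw [hs] at *; omega
  have hst : g.st ((γ⁻¹ * φ).1 y) x :=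
    hg.st_trans _ _ _ (hg.st_symm _ _ (hTW.tp y)) hy
  have hc2 := hT P g hg v' w x ψ γ hv'x hwx hv'w (hg.nn_tt hψ) hγ ((γ⁻¹ * φ).1 y) hst
  have hdec : ∀ z, φ.1 z = γ.1 ((γ⁻¹ * φ).1 z) := by
    intro z
    change φ.1 z = γ.1 (γ.1⁻¹ (φ.1 z))
    exact (γ.1.apply_symm_apply (φ.1 z)).symm
  rw [hdec (ψ.1 y), hc1, ← hc2, ← hdec y]

end Pool.Agent.FourGp.H16
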